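import Pool.Agent.Helper24_ML.TL2
import Pool.Agent.Helper71_ML.Pur
import Pool.Agent.Helper71_ML.Tau
import Pool.Agent.Helper98_BT.Loc

/-!
# Squad ML, stage 2 (helper24): the transfer of `a₁` is trivial (the core), with punctures
-/

open scoped BigOperators

set_option linter.unusedSectionVars false

noncomputable section

namespace Pool.Agent.Helper24Core

open Pool.Agent.PP.ML Pool.Agent.PP.ML.H24 Pool.Agent.Helper71_ML Pool.Agent.PP.ML.H71
open Pool.Agent.H98BT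

section

variable {G X : Type} [Group G] [MulAction G X] (R : Subgroup G)

/-- the elements of `R` which fix `s` -/
def RS (w : X × G × G × List G) : Subgroup G := R ⊓ MulAction.stabilizer G w.1

/-- the group generated by the list -/
def NN (w : X × G × G × List G) : Subgroup G := Subgroup.closure {z | z ∈ w.2.2.2}

/-- the elements of `R` which fix `s` and commute with `x` and with the members of `l` -/
def BB (w : X × G × G × List G) : Subgroup G :=
  RS R w ⊓ Subgroup.centralizer {z | z = w.2.1 ∨ z ∈ w.2.2.2}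

/-- `y` is multiplied by `m` -/
def rml (w : X × G × G × List G) (m : G) : X × G × G × List G :=
  (w.1, w.2.1, w.2.2.1 * m, w.2.2.2)

/-- the set `⟨x⟩ Q` -/
def MM (w : X × G × G × List G) : Set G :=
  AA w.2.1 (Qf w.2.1 (BB R w : Set G) w.2.2.1)

variable {R} {g : G} {Cs : List (Set G)} {w : X × G × G × List G}

theorem mem_RS {q : G} : q ∈ RS R w ↔ q ∈ R ∧ q • w.1 = w.1 := Iff.rfl

theorem mem_BB {q : G} : q ∈ BB R w ↔
    q ∈ R ∧ q • w.1 = w.1 ∧ q * w.2.1 = w.2.1 * q ∧ ∀ z ∈ w.2.2.2, q * z = z * q := by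
  unfold BB
  rw [Subgroup.mem_inf, mem_RS, Subgroup.mem_centralizer_iff]
  constructor
  · rintro ⟨⟨h1, h2⟩, h3⟩
    exact ⟨h1, h2, (h3 _ (Or.inl rfl)).symm, fun z hz => (h3 z (Or.inr hz)).symm⟩
  · rintro ⟨h1, h2, h3, h4⟩
    refine ⟨⟨h1, h2⟩, ?_⟩
    rintro z (rfl | hz)
    · exact h3.symm
    · exact (h4 z hz).symm

theorem datL : Dat w.2.1 (BB R w) (RS R w) (NN w) := by
  refine ⟨inf_le_left, fun q hq => (mem_BB.1 hq).2.2.1, fun q hq n hn => ?_⟩
  have h1 : NN w ≤ Subgroup.centralizer {q} := by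
    refine (Subgroup.closure_le _).2 fun z hz => ?_
    exact Subgroup.mem_centralizer_singleton_iff.2 ((mem_BB.1 hq).2.2.2 z hz).symm
  exact (Subgroup.mem_centralizer_singleton_iff.1 (h1 hn)).symm

theorem goodL (hw : InOmL R g Cs w) : Good w.2.1 (RS R w) (NN w) w.2.2.1 := by
  intro U hU hx hy hN
  refine hw.tr U (fun u hu => (hU hu).1) (fun u hu => (hU hu).2) ?_ ?_ ?_
  · intro u hu
    exact (Subgroup.mem_normalizer_iff.1 hx u).1 hu
  · intro u hu
    exact (Subgroup.mem_normalizer_iff.1 hy u).1 hu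
  · intro z hz u hu
    exact (Subgroup.mem_normalizer_iff.1 (hN (Subgroup.subset_closure hz)) u).1 hu

theorem cl_fix {r : G} {l : List G} (h : l = cl r l) : ∀ z ∈ l, r * z = z * r := by
  induction l with
  | nil => intro z hz; simp at hz
  | cons a l ih =>
    have h1 : a :: l = (r * a * r⁻¹) :: cl r l := h
    have h2 : a = r * a * r⁻¹ := (List.cons.inj h1).1
    have h3 : l = cl r l := (List.cons.inj h1).2
    intro z hz
    rcases List.mem_cons.1 hz with rfl | hz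
    · calc r * z = (r * z * r⁻¹) * r := by group
        _ = z * r := by rw [← h2]
    · exact ih h3 z hz

theorem cl_eq {r : G} {l : List G} (h : ∀ z ∈ l, r * z = z * r) : cl r l = l := by
  unfold cl
  conv_rhs => rw [← List.map_id l]
  apply List.map_congr_left
  intro z hz
  rw [h z hz, mul_inv_cancel_right]
  rfl

theorem rml_rml (a b : G) (w : X × G × G × List G) : rml (rml w a) b = rml w (a * b) := by
  unfold rml
  simp only [mul_assoc]

theorem rml_one (w : X × G × G × List G) : rml w (1 : G) = w := by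
  unfold rml
  rw [mul_one]

/-- from an equality of tuples -/
theorem eq_ofL {r m m' : G} (hr : r ∈ R) (h : rml w m' = cjl r (rml w m)) :
    r ∈ BB R w ∧ (w.2.2.1 * m)⁻¹ * r * (w.2.2.1 * m) * r⁻¹ = m⁻¹ * m' := by
  have h1 : w.1 = r • w.1 := congrArg Prod.fst h
  have h2 : w.2.1 = r * w.2.1 * r⁻¹ := congrArg (fun z => z.2.1) h
  have h3 : w.2.2.1 * m' = r * (w.2.2.1 * m) * r⁻¹ := congrArg (fun z => z.2.2.1) h
  have h4 : w.2.2.2 = cl r w.2.2.2 := congrArg (fun z => z.2.2.2) h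
  refine ⟨mem_BB.2 ⟨hr, h1.symm, ?_, cl_fix h4⟩, ?_⟩
  · calc r * w.2.1 = (r * w.2.1 * r⁻¹) * r := by group
      _ = w.2.1 * r := by rw [← h2]
  · calc (w.2.2.1 * m)⁻¹ * r * (w.2.2.1 * m) * r⁻¹ = m⁻¹ * w.2.2.1⁻¹ * (r * (w.2.2.1 * m) * r⁻¹) := by
          group
      _ = m⁻¹ * w.2.2.1⁻¹ * (w.2.2.1 * m') := by rw [h3]
      _ = _ := by group

end

section fin

variable {G X : Type} [Group G] [Finite G] [MulAction G X] {R : Subgroup G} {g : G}
  {Cs : List (Set G)} {w : X × G × G × List G}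

theorem mem_norm' {V : Subgroup G} {a : G} (h : ∀ u ∈ V, a * u * a⁻¹ ∈ V) :
    a ∈ Subgroup.normalizer (V : Set G) := by
  rw [Subgroup.mem_normalizer_iff]
  intro u
  refine ⟨h u, fun hu => ?_⟩
  have h1 := conj_inv_mem V a h _ hu
  have e : a⁻¹ * (a * u * a⁻¹) * a = u := by group
  rwa [e] at h1

/-- everything about the group `Q` of a tuple -/
theorem unionL (hw : InOmL R g Cs w) : ∃ Q : Subgroup G,
    (Q : Set G) = Qf w.2.1 (BB R w : Set G) w.2.2.1 ∧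
    Adm w.2.1 (BB R w) (RS R w) (NN w) w.2.2.1 Q ∧
    (∀ i, Qs w.2.1 (BB R w : Set G) w.2.2.1 i ⊆ Q) ∧
    (∀ q ∈ Q, w.2.2.1⁻¹ * q * w.2.2.1 * q⁻¹ ∈ AA w.2.1 (Q : Set G)) ∧
    ∀ q ∈ BB R w, w.2.2.1⁻¹ * q * w.2.2.1 * q⁻¹ ∈ AA w.2.1 (Q : Set G) → q ∈ Q :=
  datL.union (goodL hw)

theorem inOmL_rml (hw : InOmL R g Cs w) {Q : Subgroup G}
    (hA : Adm w.2.1 (BB R w) (RS R w) (NN w) w.2.2.1 Q) {m : G}
    (hm : m ∈ AA w.2.1 (Q : Set G)) : InOmL R g Cs (rml w m) := by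
  have hms : m • w.1 = w.1 := by
    obtain ⟨j, p, hp, rfl⟩ := hm
    have h1 : p • w.1 = w.1 := (mem_BB.1 (hA.le hp)).2.1
    have h2 : w.2.1 ∈ MulAction.stabilizer G w.1 := MulAction.mem_stabilizer_iff.2 hw.sx
    have h3 := MulAction.mem_stabilizer_iff.1 (Subgroup.zpow_mem _ h2 j)
    rw [mul_smul, h1, h3]
  have hmx : m * w.2.1 = w.2.1 * m :=
    datL.AA_comm hA.le hA.comm hm ⟨1, 1, Q.one_mem, by simp⟩
  refine ⟨hw.sx, ?_, hw.sl, hw.ml, ?_, ?_⟩
  · show (w.2.2.1 * m) • w.1 = w.1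
    rw [mul_smul, hms, hw.sy]
  · show w.2.1 * (w.2.2.1 * m) * w.2.1⁻¹ * (w.2.2.1 * m)⁻¹ = g * w.2.2.2.prod
    rw [← hw.cm]
    have h1 : m * w.2.1⁻¹ = w.2.1⁻¹ * m :=
      (Commute.inv_right (show Commute m w.2.1 from hmx)).eq
    calc w.2.1 * (w.2.2.1 * m) * w.2.1⁻¹ * (w.2.2.1 * m)⁻¹ =
        w.2.1 * w.2.2.1 * (m * w.2.1⁻¹) * m⁻¹ * w.2.2.1⁻¹ := by group
      _ = w.2.1 * w.2.2.1 * (w.2.1⁻¹ * m) * m⁻¹ * w.2.2.1⁻¹ := by rw [h1]
      _ = _ := by group
  · intro U hU hf hx hy hl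
    exact hA.good m hm U (fun u hu => ⟨hU hu, hf u hu⟩) (mem_norm' hx) (mem_norm' hy)
      ((Subgroup.closure_le _).2 fun z hz => mem_norm' (hl z hz))

/-- the group `⟨x⟩ Q` -/
theorem exists_MG (hw : InOmL R g Cs w) : ∃ (Q M : Subgroup G), (M : Set G) = MM R w ∧
    (∀ a ∈ M, ∀ b ∈ M, a * b = b * a) ∧ Q ≤ M ∧ Q ≤ BB R w ∧
    (∀ m ∈ M, InOmL R g Cs (rml w m)) ∧ (∀ m ∈ M, MM R (rml w m) = MM R w) ∧
    (∀ q ∈ Q, w.2.2.1⁻¹ * q * w.2.2.1 * q⁻¹ ∈ M) ∧
    ∀ m ∈ M, ∀ m' ∈ M, ∀ r ∈ R, rml w m' = cjl r (rml w m) →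
      (∀ p ∈ M, r * p = p * r) ∧ r ∈ Q ∧ w.2.2.1⁻¹ * r * w.2.2.1 * r⁻¹ = m⁻¹ * m' := by
  obtain ⟨Q, hQ, hA, hsub, hcl1, hcl⟩ := unionL hw
  have hMM : MM R w = AA w.2.1 (Q : Set G) := by
    unfold MM
    rw [hQ]
  have hdat : Dat w.2.1 (BB R w) (RS R w) (NN w) := datL
  obtain ⟨M, hM⟩ : ∃ M : Subgroup G, (M : Set G) = AA w.2.1 (Q : Set G) :=
    ⟨{ carrier := AA w.2.1 (Q : Set G)
       one_mem' := ⟨0, 1, Q.one_mem, by simp⟩
       mul_mem' := fun ha hb => hdat.AA_mul hA.le ha hb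
       inv_mem' := fun ha => hdat.AA_inv hA.le ha }, rfl⟩
  have hmem : ∀ m, m ∈ M ↔ m ∈ AA w.2.1 (Q : Set G) := by
    intro m
    rw [← SetLike.mem_coe, hM]
  refine ⟨Q, M, by rw [hM, hMM], ?_, ?_, hA.le, ?_, ?_, ?_, ?_⟩
  · intro a ha b hb
    exact hdat.AA_comm hA.le hA.comm ((hmem a).1 ha) ((hmem b).1 hb)
  · intro q hq
    exact (hmem q).2 (AA_of_mem hq)
  · intro m hm
    exact inOmL_rml hw hA ((hmem m).1 hm)
  · intro m hm
    have h1 := hdat.same' hA hQ hsub hcl ((hmem m).1 hm)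
    show AA w.2.1 (Qf w.2.1 (BB R w : Set G) (w.2.2.1 * m)) = _
    rw [h1]
    rfl
  · intro q hq
    exact (hmem _).2 (hcl1 q hq)
  · intro m hm m' hm' r hr h
    obtain ⟨h1, h2⟩ := eq_ofL hr h
    have h3 : (w.2.2.1 * m)⁻¹ * r * (w.2.2.1 * m) * r⁻¹ ∈ AA w.2.1 (Q : Set G) := by
      rw [h2]
      exact (hmem _).1 (M.mul_mem (M.inv_mem hm) hm')
    obtain ⟨h4, h5, h6⟩ := hdat.key hA hQ hsub hcl ((hmem m).1 hm) h1 h3
    exact ⟨fun p hp => h4 p ((hmem p).1 hp), h5, by rw [h6, h2]⟩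

theorem BB_cjl {r : G} (hr : r ∈ R) :
    (BB R (cjl r w) : Set G) = {q | r⁻¹ * q * r ∈ (BB R w : Set G)} := by
  ext q
  rw [Set.mem_ofPred_eq, SetLike.mem_coe, SetLike.mem_coe, mem_BB, mem_BB]
  have e1 : q ∈ R ↔ r⁻¹ * q * r ∈ R := by
    constructor
    · intro h
      exact R.mul_mem (R.mul_mem (R.inv_mem hr) h) hr
    · intro h
      have h1 := R.mul_mem (R.mul_mem hr h) (R.inv_mem hr)
      have e : r * (r⁻¹ * q * r) * r⁻¹ = q := by group
      rwa [e] at h1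
  have e2 : q • (cjl r w).1 = (cjl r w).1 ↔ (r⁻¹ * q * r) • w.1 = w.1 := by
    show q • (r • w.1) = r • w.1 ↔ _
    rw [mul_smul, mul_smul, inv_smul_eq_iff]
  have e3 : ∀ z z' : G, z' = r * z * r⁻¹ →
      (q * z' = z' * q ↔ (r⁻¹ * q * r) * z = z * (r⁻¹ * q * r)) := by
    rintro z z' rfl
    constructor
    · intro h
      calc (r⁻¹ * q * r) * z = r⁻¹ * (q * (r * z * r⁻¹)) * r := by group
        _ = r⁻¹ * ((r * z * r⁻¹) * q) * r := by rw [h]
        _ = _ := by group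
    · intro h
      calc q * (r * z * r⁻¹) = r * ((r⁻¹ * q * r) * z) * r⁻¹ := by group
        _ = r * (z * (r⁻¹ * q * r)) * r⁻¹ := by rw [h]
        _ = _ := by group
  have e4 : (∀ z ∈ (cjl r w).2.2.2, q * z = z * q) ↔
      ∀ z ∈ w.2.2.2, (r⁻¹ * q * r) * z = z * (r⁻¹ * q * r) := by
    constructor
    · intro h z hz
      exact (e3 z _ rfl).1 (h _ (cl_mem.2 ⟨z, hz, rfl⟩))
    · intro h z hz
      obtain ⟨z', hz', rfl⟩ := cl_mem.1 hz
      exact (e3 z' _ rfl).2 (h z' hz')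
  rw [e1, e2, e3 w.2.1 (cjl r w).2.1 rfl, e4]

theorem MM_cjl {r : G} (hr : r ∈ R) (z : G) : z ∈ MM R (cjl r w) ↔ r⁻¹ * z * r ∈ MM R w := by
  unfold MM
  rw [BB_cjl hr]
  show z ∈ AA (r * w.2.1 * r⁻¹) (Qf (r * w.2.1 * r⁻¹) {q | r⁻¹ * q * r ∈ (BB R w : Set G)}
    (r * w.2.2.1 * r⁻¹)) ↔ _
  rw [Qf_conj, AA_conj]

theorem cjl_rml (r m : G) (w : X × G × G × List G) :
    cjl r (rml w m) = rml (cjl r w) (r * m * r⁻¹) := by
  unfold cjl rml
  simp only [Prod.mk.injEq, true_and, and_true]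
  group

end fin

/-- the core -/
theorem core : CoreStmt := by
  intro G X A _ _ _ _ _ R g ρ hR Cs hCs k hk
  classical
  let act : MulAction R (Om (X := X) R g Cs) := act hR hCs
  have hsm : ∀ (r : R) (w : Om (X := X) R g Cs), (r • w).1 = cjl r.1 w.1 := fun _ _ => rfl
  have hfree : ∀ (r : R) (w : Om (X := X) R g Cs), r • w = w → r = 1 := by
    intro r w h
    exact Subtype.ext (free_cjl w.2 r.2 (congrArg Subtype.val h))
  have c1 : Comm R (p1 (X := X) R g Cs) := fun r w => Subtype.ext (m1_cjl r.1 w.1)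
  -- the classes
  obtain ⟨C, hCdef⟩ : ∃ C : Om (X := X) R g Cs → Set (Om (X := X) R g Cs),
      C = fun w => {w' | ∃ r ∈ R, ∃ m ∈ MM R w.1, w'.1 = cjl r (rml w.1 m)} := ⟨_, rfl⟩
  have hC : ∀ w w', w' ∈ C w ↔ ∃ r ∈ R, ∃ m ∈ MM R w.1, w'.1 = cjl r (rml w.1 m) := by
    intro w w'
    rw [hCdef]
    exact Iff.rfl
  have hC1 : ∀ w, w ∈ C w := by
    intro w
    obtain ⟨Q, M, hM, _⟩ := exists_MG w.2
    rw [hC]
    refine ⟨1, R.one_mem, 1, ?_, ?_⟩
    · rw [← hM]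
      exact M.one_mem
    · rw [rml_one, cjl_one]
  have hC2 : ∀ w w', w' ∈ C w → C w' = C w := by
    have hsub1 : ∀ (w w' : Om (X := X) R g Cs) (r : G), r ∈ R → w'.1 = cjl r w.1 →
        C w' ⊆ C w := by
      intro w w' r hr hw' v hv
      rw [hC] at hv ⊢
      obtain ⟨t, ht, m, hm, hv⟩ := hv
      rw [hw', MM_cjl hr] at hm
      refine ⟨t * r, R.mul_mem ht hr, _, hm, ?_⟩
      have e : r * (r⁻¹ * m * r) * r⁻¹ = m := by group
      rw [hv, hw', cjl_mul, cjl_rml r, e]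
    have hsub2 : ∀ (w w' : Om (X := X) R g Cs) (m : G), m ∈ MM R w.1 → w'.1 = rml w.1 m →
        C w' ⊆ C w := by
      intro w w' m hm hw' v hv
      obtain ⟨Q, M, hM, _, _, _, _, hsame, _⟩ := exists_MG w.2
      have hmM : m ∈ M := by
        rw [← SetLike.mem_coe, hM]
        exact hm
      rw [hC] at hv ⊢
      obtain ⟨t, ht, m', hm', hv⟩ := hv
      rw [hw', hsame m hmM, ← hM] at hm'
      refine ⟨t, ht, m * m', ?_, ?_⟩
      · rw [← hM]
        exact M.mul_mem hmM hm'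
      · rw [hv, hw', rml_rml]
    intro w w' h
    rw [hC] at h
    obtain ⟨r, hr, m, hm, h⟩ := h
    obtain ⟨Q, M, hM, _, _, _, hom, hsame, _⟩ := exists_MG w.2
    have hmM : m ∈ M := by
      rw [← SetLike.mem_coe, hM]
      exact hm
    obtain ⟨v, hv⟩ : ∃ v : Om (X := X) R g Cs, v.1 = rml w.1 m := ⟨⟨_, hom m hmM⟩, rfl⟩
    have h1 : C w' ⊆ C v := hsub1 v w' r hr (by rw [h, hv])
    have h2 : C v ⊆ C w' := hsub1 w' v r⁻¹ (R.inv_mem hr) (by
      rw [h, hv, ← cjl_mul, inv_mul_cancel, cjl_one])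
    have h3 : C v ⊆ C w := hsub2 w v m hm hv
    have h4 : C w ⊆ C v := hsub2 v w m⁻¹ (by
      rw [hv, hsame m hmM, ← hM]
      exact M.inv_mem hmM) (by
      rw [hv, rml_rml, mul_inv_cancel, rml_one])
    exact (Set.Subset.antisymm h1 h2).trans (Set.Subset.antisymm h3 h4)
  have key : ∀ w : Om (X := X) R g Cs,
      ∏ᶠ (q : MulAction.orbitRel.Quotient R (Om (X := X) R g Cs)) (_ : C q.out = C w),
        gau R k (p1 (X := X) R g Cs) q = 1 := by
    intro w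
    obtain ⟨Q, M, hM, hcm, hQM, hQB, hom, hsame, hdel, hkey⟩ := exists_MG w.2
    let _ : CommGroup M := { (inferInstance : Group M) with
      mul_comm := fun a b => Subtype.ext (hcm a a.2 b b.2) }
    have hxM : w.1.2.1 ∈ M := by
      rw [← SetLike.mem_coe, hM]
      obtain ⟨Q', hQ', _⟩ := unionL w.2
      refine ⟨1, 1, ?_, by simp⟩
      rw [← hQ']
      exact Q'.one_mem
    obtain ⟨φ, hφ⟩ : ∃ φ : M → Om (X := X) R g Cs, ∀ m, (φ m).1 = rml w.1 m.1 :=
      ⟨fun m => ⟨_, hom m.1 m.2⟩, fun m => rfl⟩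
    have hφ1 : φ 1 = w := by
      apply Subtype.ext
      rw [hφ]
      exact rml_one w.1
    have hφf : ∀ m, p1 (X := X) R g Cs (φ m) = φ (m * ⟨w.1.2.1, hxM⟩) := by
      intro m
      apply Subtype.ext
      rw [hφ]
      show m1 (φ m).1 = _
      rw [hφ]
      unfold m1 rml
      simp only [Subgroup.coe_mul, mul_assoc]
    have hφr : ∀ (m m' m'' : M) (r : R), φ m' = r • φ m → φ (m' * m'') = r • φ (m * m'') := by
      intro m m' m'' r h
      have h1 : rml w.1 m'.1 = cjl r.1 (rml w.1 m.1) := by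
        have h2 := congrArg Subtype.val h
        rw [hsm, hφ, hφ] at h2
        exact h2
      obtain ⟨h3, _, _⟩ := hkey m.1 m.2 m'.1 m'.2 r.1 r.2 h1
      apply Subtype.ext
      rw [hsm, hφ, hφ]
      have h4 : w.1.2.2.1 * m'.1 = r.1 * (w.1.2.2.1 * m.1) * r.1⁻¹ :=
        congrArg (fun z => z.2.2.1) h1
      have h5 := h3 m''.1 m''.2
      have e : w.1.2.2.1 * (m'.1 * m''.1) = r.1 * (w.1.2.2.1 * (m.1 * m''.1)) * r.1⁻¹ := by
        calc w.1.2.2.1 * (m'.1 * m''.1) = (w.1.2.2.1 * m'.1) * m''.1 := by group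
          _ = (r.1 * (w.1.2.2.1 * m.1) * r.1⁻¹) * m''.1 := by rw [h4]
          _ = r.1 * (w.1.2.2.1 * m.1) * r.1⁻¹ * (m''.1 * r.1) * r.1⁻¹ := by group
          _ = r.1 * (w.1.2.2.1 * m.1) * r.1⁻¹ * (r.1 * m''.1) * r.1⁻¹ := by rw [h5]
          _ = _ := by group
      have a1 := congrArg Prod.fst h1
      have a2 := congrArg (fun z => z.2.1) h1
      have a3 := congrArg (fun z => z.2.2.2) h1
      exact Prod.ext a1 (Prod.ext a2 (Prod.ext e a3))
    have hCφ : ∀ w', w' ∈ C w ↔ ∃ (r : R) (m : M), w' = r • φ m := by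
      intro w'
      rw [hC]
      constructor
      · rintro ⟨r, hr, m, hm, h⟩
        have hm' : m ∈ M := by
          rw [← SetLike.mem_coe, hM]
          exact hm
        refine ⟨⟨r, hr⟩, ⟨m, hm'⟩, Subtype.ext ?_⟩
        rw [hsm, hφ]
        exact h
      · rintro ⟨r, m, rfl⟩
        refine ⟨r.1, r.2, m.1, ?_, ?_⟩
        · rw [← hM]
          exact m.2
        · rw [hsm, hφ]
    obtain ⟨h1, _, _⟩ := fibre0 hfree hk c1 hC1 hC2 w (M := M) ⟨w.1.2.1, hxM⟩ φ hφ1 hφf hφr hCφ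
    obtain ⟨S, hS⟩ : ∃ S : Subgroup M, S = stb φ hφr := ⟨_, rfl⟩
    rw [← hS] at h1
    have hmul : (⟨w.1.2.1, hxM⟩ : M) ^ S.index = 1 := by
      obtain ⟨Q', hQ'⟩ : ∃ Q' : Subgroup M, Q' = Q.subgroupOf M := ⟨_, rfl⟩
      have hQ'mem : ∀ m : M, m ∈ Q' ↔ m.1 ∈ Q := by
        intro m
        rw [hQ']
        exact Subgroup.mem_subgroupOf
      have hψM : ∀ q ∈ Q, w.1.2.2.1⁻¹ * q * w.1.2.2.1 ∈ M := by
        intro q hq
        have h2 := M.mul_mem (hdel q hq) (hQM hq)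
        rwa [inv_mul_cancel_right] at h2
      let ψ : Q' →* M :=
        { toFun := fun q => ⟨w.1.2.2.1⁻¹ * (q : M).1 * w.1.2.2.1, hψM _ ((hQ'mem q).1 q.2)⟩
          map_one' := Subtype.ext (by
            show w.1.2.2.1⁻¹ * (1 : G) * w.1.2.2.1 = 1
            group)
          map_mul' := fun a b => Subtype.ext (by
            show w.1.2.2.1⁻¹ * ((a : M).1 * (b : M).1) * w.1.2.2.1 =
              (w.1.2.2.1⁻¹ * (a : M).1 * w.1.2.2.1) * (w.1.2.2.1⁻¹ * (b : M).1 * w.1.2.2.1)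
            group) }
      have hψ : ∀ q : Q', (ψ q).1 = w.1.2.2.1⁻¹ * (q : M).1 * w.1.2.2.1 := fun _ => rfl
      have hpur := pur M Q' ψ ?_ ?_
      rotate_left
      · intro a b hab
        have h2 := congrArg Subtype.val hab
        rw [hψ, hψ] at h2
        exact Subtype.ext (Subtype.ext (mul_left_cancel (mul_right_cancel h2)))
      · intro U hU hUψ
        have hg := goodL w.2
        have hUB : ∀ u ∈ U, u.1 ∈ BB R w.1 := fun u hu => hQB ((hQ'mem u).1 (hU hu))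
        have h2 := hg (U.map M.subtype) ?_ ?_ ?_ ?_
        · exact (Subgroup.map_eq_bot_iff_of_injective _ M.subtype_injective).1 h2
        · rintro _ ⟨u, hu, rfl⟩
          have h3 := mem_BB.1 (hUB u hu)
          exact ⟨h3.1, h3.2.1⟩
        · refine mem_norm' ?_
          rintro _ ⟨u, hu, rfl⟩
          have h3 := (mem_BB.1 (hUB u hu)).2.2.1
          refine ⟨u, hu, ?_⟩
          show u.1 = w.1.2.1 * u.1 * w.1.2.1⁻¹
          rw [← h3, mul_inv_cancel_right]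
        · have h3 : w.1.2.2.1⁻¹ ∈ Subgroup.normalizer ((U.map M.subtype : Subgroup G) : Set G) := by
            refine mem_norm' ?_
            rintro _ ⟨u, hu, rfl⟩
            refine ⟨_, hUψ ⟨u, hU hu⟩ hu, ?_⟩
            show w.1.2.2.1⁻¹ * u.1 * w.1.2.2.1 = w.1.2.2.1⁻¹ * u.1 * w.1.2.2.1⁻¹⁻¹
            rw [inv_inv]
          have h4 := Subgroup.inv_mem _ h3
          rwa [inv_inv] at h4
        · refine (Subgroup.closure_le _).2 fun z hz => mem_norm' ?_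
          rintro _ ⟨u, hu, rfl⟩
          have h3 := (mem_BB.1 (hUB u hu)).2.2.2 z hz
          refine ⟨u, hu, ?_⟩
          show u.1 = z * u.1 * z⁻¹
          rw [← h3, mul_inv_cancel_right]
      -- the homomorphism `q ↦ y⁻¹ q y q⁻¹`
      let δ : Q' →* M :=
        { toFun := fun q => ψ q * (q : M)⁻¹
          map_one' := by simp
          map_mul' := fun a b => by
            rw [map_mul, Subgroup.coe_mul, mul_inv_rev]
            rw [mul_comm (b : M)⁻¹ (a : M)⁻¹]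
            exact mul_mul_mul_comm _ _ _ _ }
      have hle : S ≤ δ.range := by
        intro m hm
        rw [hS] at hm
        obtain ⟨r, hr⟩ : ∃ r : R, φ m = r • φ 1 := hm
        have h2 : rml w.1 m.1 = cjl r.1 (rml w.1 (1 : M).1) := by
          have h3 := congrArg Subtype.val hr
          rw [hsm, hφ, hφ] at h3
          exact h3
        obtain ⟨_, h4, h5⟩ := hkey (1 : M).1 (1 : M).2 m.1 m.2 r.1 r.2 h2
        refine ⟨⟨⟨r.1, hQM h4⟩, (hQ'mem _).2 h4⟩, Subtype.ext ?_⟩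
        show w.1.2.2.1⁻¹ * r.1 * w.1.2.2.1 * r.1⁻¹ = m.1
        rw [h5]
        show (1 : G)⁻¹ * m.1 = m.1
        rw [inv_one, one_mul]
      have hd : Nat.card S ∣ Nat.card Q' :=
        (Subgroup.card_dvd_of_le hle).trans (Subgroup.card_range_dvd δ)
      obtain ⟨c, hc⟩ := hd
      have e1 := Subgroup.card_mul_index S
      have e2 := Subgroup.card_mul_index Q'
      have hpos : 0 < Nat.card S := Nat.card_pos
      have e3 : S.index = Q'.index * c := by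
        refine Nat.eq_of_mul_eq_mul_left hpos ?_
        rw [e1, ← e2, hc]
        ring
      rw [e3, pow_mul, hpur, one_pow]
    have h2 := h1 1 (by rw [hmul, hφ1, one_smul])
    rw [h2, map_one]
  obtain ⟨n, hn, _⟩ := tau_classes (R := R) (k := k) (f := p1 (X := X) R g Cs) (C := C) (a := 1) key
  rw [hn, one_pow]

end Pool.Agent.Helper24Core

/-- the core -/
theorem Pool.Agent.PP.ML.H24.core : Pool.Agent.PP.ML.H24.CoreStmt := Pool.Agent.Helper24Core.core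

/-- TL2 -/
theorem Pool.Agent.PP.ML.H24.tl2' : Pool.Agent.PP.ML.TL2Stmt :=
  Pool.Agent.PP.ML.H24.tl2 Pool.Agent.PP.ML.H24.core
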