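import Pool.Agent.Helper66_ML.Stmts2
import Pool.Agent.Helper71_ML.Star
import Pool.Agent.Helper71_ML.Rel

/-!
# Squad ML, stage 2 (helper24): the moves `a₁`, `b`, `a₂` on the tuples with punctures
-/

open scoped BigOperators

set_option linter.unusedSectionVars false

noncomputable section

namespace Pool.Agent.PP.ML.H24

open Pool.Agent.PP.ML Pool.Agent.Helper71_ML Pool.Agent.PP.ML.H71

section moves

variable {G X : Type} [Group G] [MulAction G X]

/-- conjugation of a list -/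
def cl (e : G) (l : List G) : List G := l.map fun z => e * z * e⁻¹

theorem cl_cl (e f : G) (l : List G) : cl e (cl f l) = cl (e * f) l := by
  unfold cl
  rw [List.map_map]
  apply List.map_congr_left
  intro z _
  simp only [Function.comp]
  group

theorem cl_one (l : List G) : cl 1 l = l := by
  unfold cl
  conv_rhs => rw [← List.map_id l]
  apply List.map_congr_left
  intro z _
  simp

theorem cl_prod (e : G) (l : List G) : (cl e l).prod = e * l.prod * e⁻¹ := by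
  induction l with
  | nil => simp [cl]
  | cons a l ih =>
    change (e * a * e⁻¹) * (cl e l).prod = _
    rw [ih, List.prod_cons]
    group

theorem cl_mem {e : G} {l : List G} {z : G} : z ∈ cl e l ↔ ∃ z' ∈ l, e * z' * e⁻¹ = z := by
  unfold cl
  rw [List.mem_map]

theorem cl_forall {Cs : List (Set G)} (hCs : ∀ K ∈ Cs, Cj K) (e : G) {l : List G}
    (h : List.Forall₂ (fun z K => z ∈ K) l Cs) :
    List.Forall₂ (fun z K => z ∈ K) (cl e l) Cs := by
  induction h with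
  | nil => exact List.Forall₂.nil
  | cons h1 h2 ih =>
    exact List.Forall₂.cons (hCs _ List.mem_cons_self e _ h1)
      (ih fun K hK => hCs K (List.mem_cons_of_mem _ hK))

/-- conjugation of a tuple -/
def cjl (r : G) (w : X × G × G × List G) : X × G × G × List G :=
  (r • w.1, r * w.2.1 * r⁻¹, r * w.2.2.1 * r⁻¹, cl r w.2.2.2)

theorem cjl_one (w : X × G × G × List G) : cjl (1 : G) w = w := by
  simp [cjl, cl_one]

theorem cjl_mul (r r' : G) (w : X × G × G × List G) : cjl (r * r') w = cjl r (cjl r' w) := by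
  simp only [cjl, mul_smul, mul_inv_rev, mul_assoc, cl_cl]

/-- `x` is kept, `y` is multiplied by `x` -/
def m1 (w : X × G × G × List G) : X × G × G × List G := (w.1, w.2.1, w.2.2.1 * w.2.1, w.2.2.2)

/-- `y` is kept, `x` is multiplied by `y⁻¹` -/
def mb (w : X × G × G × List G) : X × G × G × List G := (w.1, w.2.1 * w.2.2.1⁻¹, w.2.2.1, w.2.2.2)

/-- the twist around the handle and all punctures -/
def m2 (g : G) (w : X × G × G × List G) : X × G × G × List G :=
  (w.1, w.2.1, g⁻¹ * w.2.1 * w.2.2.1, cl (g⁻¹ * w.2.1) w.2.2.2)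

theorem m1_inj : Function.Injective (m1 : X × G × G × List G → X × G × G × List G) := by
  rintro ⟨s, x, y, l⟩ ⟨s', x', y', l'⟩ e
  simp only [m1, Prod.mk.injEq] at e
  obtain ⟨rfl, rfl, e3, rfl⟩ := e
  have := mul_right_cancel e3
  subst this
  rfl

theorem mb_inj : Function.Injective (mb : X × G × G × List G → X × G × G × List G) := by
  rintro ⟨s, x, y, l⟩ ⟨s', x', y', l'⟩ e
  simp only [mb, Prod.mk.injEq] at e
  obtain ⟨rfl, e2, rfl, rfl⟩ := e
  have := mul_right_cancel e2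
  subst this
  rfl

theorem m2_inj (g : G) :
    Function.Injective (m2 g : X × G × G × List G → X × G × G × List G) := by
  rintro ⟨s, x, y, l⟩ ⟨s', x', y', l'⟩ e
  simp only [m2, Prod.mk.injEq] at e
  obtain ⟨rfl, rfl, e3, e4⟩ := e
  have h1 := mul_left_cancel e3
  subst h1
  have h2 := congrArg (cl (g⁻¹ * x)⁻¹) e4
  rw [cl_cl, cl_cl, inv_mul_cancel, cl_one, cl_one] at h2
  subst h2
  rfl

theorem m1_cjl (r : G) (w : X × G × G × List G) : m1 (cjl r w) = cjl r (m1 w) := by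
  obtain ⟨s, x, y, l⟩ := w
  simp only [m1, cjl, Prod.mk.injEq, true_and, and_true]
  group

theorem mb_cjl (r : G) (w : X × G × G × List G) : mb (cjl r w) = cjl r (mb w) := by
  obtain ⟨s, x, y, l⟩ := w
  simp only [mb, cjl, Prod.mk.injEq, true_and, and_true]
  group

theorem m2_cjl {r g : G} (h : r * g = g * r) (w : X × G × G × List G) :
    m2 g (cjl r w) = cjl r (m2 g w) := by
  obtain ⟨s, x, y, l⟩ := w
  have h1 : g⁻¹ * r = r * g⁻¹ := by
    rw [inv_mul_eq_iff_eq_mul, ← mul_assoc, ← h, mul_inv_cancel_right]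
  simp only [m2, cjl, Prod.mk.injEq, true_and, cl_cl]
  constructor
  · calc g⁻¹ * (r * x * r⁻¹) * (r * y * r⁻¹) = (g⁻¹ * r) * (x * y * r⁻¹) := by group
      _ = r * (g⁻¹ * x * y) * r⁻¹ := by rw [h1]; group
  · congr 1
    calc g⁻¹ * (r * x * r⁻¹) * r = (g⁻¹ * r) * x := by group
      _ = r * (g⁻¹ * x) := by rw [h1]; group

/-- `a₁ b a₁ = b a₁ b` -/
theorem braid_1b (w : X × G × G × List G) : m1 (mb (m1 w)) = mb (m1 (mb w)) := by
  obtain ⟨s, x, y, l⟩ := w
  simp only [m1, mb, Prod.mk.injEq, true_and, and_true]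
  constructor <;> group

/-- `a₂ b a₂ = b a₂ b` -/
theorem braid_2b (g : G) (w : X × G × G × List G) : m2 g (mb (m2 g w)) = mb (m2 g (mb w)) := by
  obtain ⟨s, x, y, l⟩ := w
  simp only [m2, mb, Prod.mk.injEq, true_and, cl_cl]
  refine ⟨?_, ?_, ?_⟩
  · group
  · group
  · congr 1
    group

end moves

section inom

variable {G X : Type} [Group G] [Finite G] [MulAction G X] {R : Subgroup G} {g : G}
  {Cs : List (Set G)}

theorem conj_inv_mem (U : Subgroup G) (x : G)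
    (h : ∀ u ∈ U, x * u * x⁻¹ ∈ U) : ∀ u ∈ U, x⁻¹ * u * x ∈ U := by
  have hp : ∀ n : ℕ, ∀ u ∈ U, x ^ n * u * (x ^ n)⁻¹ ∈ U := by
    intro n
    induction n with
    | zero => intro u hu; simpa using hu
    | succ n ih =>
      intro u hu
      have h1 := h _ (ih u hu)
      have e : x ^ (n + 1) * u * (x ^ (n + 1))⁻¹ = x * (x ^ n * u * (x ^ n)⁻¹) * x⁻¹ := by
        rw [pow_succ']; group
      rw [e]; exact h1
  intro u hu
  have h0 := hp (orderOf x - 1) u hu
  have e : x ^ (orderOf x - 1) = x⁻¹ := by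
    have h1 : x ^ (orderOf x - 1) * x = 1 := by
      rw [← pow_succ, Nat.sub_add_cancel (orderOf_pos x), pow_orderOf_eq_one]
    exact eq_inv_of_mul_eq_one_left h1
  rw [e, inv_inv] at h0
  exact h0

theorem inOmL_m1 {w : X × G × G × List G} (h : InOmL R g Cs w) : InOmL R g Cs (m1 w) := by
  obtain ⟨s, x, y, l⟩ := w
  obtain ⟨h1, h2, h3, h4, h5, h6⟩ := h
  simp only at h1 h2 h3 h4 h5 h6
  refine ⟨h1, ?_, h3, h4, ?_, ?_⟩
  · show (y * x) • s = s
    rw [mul_smul, h1, h2]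
  · show x * (y * x) * x⁻¹ * (y * x)⁻¹ = g * l.prod
    rw [← h5]; group
  · intro U hU hf hx hy hl
    refine h6 U hU hf hx ?_ hl
    intro u hu
    have h7 : (y * x) * (x⁻¹ * u * x) * (y * x)⁻¹ ∈ U := hy _ (conj_inv_mem U x hx u hu)
    have e : (y * x) * (x⁻¹ * u * x) * (y * x)⁻¹ = y * u * y⁻¹ := by group
    rw [e] at h7
    exact h7

theorem inOmL_mb {w : X × G × G × List G} (h : InOmL R g Cs w) : InOmL R g Cs (mb w) := by
  obtain ⟨s, x, y, l⟩ := w
  obtain ⟨h1, h2, h3, h4, h5, h6⟩ := h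
  simp only at h1 h2 h3 h4 h5 h6
  refine ⟨?_, h2, h3, h4, ?_, ?_⟩
  · show (x * y⁻¹) • s = s
    rw [mul_smul, inv_smul_eq_iff.2 h2.symm, h1]
  · show (x * y⁻¹) * y * (x * y⁻¹)⁻¹ * y⁻¹ = g * l.prod
    rw [← h5]; group
  · intro U hU hf hx hy hl
    refine h6 U hU hf ?_ hy hl
    intro u hu
    have h7 : (x * y⁻¹) * (y * u * y⁻¹) * (x * y⁻¹)⁻¹ ∈ U := hx _ (hy u hu)
    have e : (x * y⁻¹) * (y * u * y⁻¹) * (x * y⁻¹)⁻¹ = x * u * x⁻¹ := by group
    rw [e] at h7
    exact h7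

theorem prod_smul {l : List G} {s : X} (h : ∀ z ∈ l, z • s = s) : l.prod • s = s := by
  induction l with
  | nil => exact one_smul _ _
  | cons a l ih =>
    rw [List.prod_cons, mul_smul, ih fun z hz => h z (List.mem_cons_of_mem _ hz),
      h a List.mem_cons_self]

theorem g_smul {w : X × G × G × List G} (h : InOmL R g Cs w) : g • w.1 = w.1 := by
  obtain ⟨s, x, y, l⟩ := w
  obtain ⟨h1, h2, h3, h4, h5, h6⟩ := h
  simp only at h1 h2 h3 h4 h5 h6
  show g • s = s
  have hp : l.prod⁻¹ • s = s := inv_smul_eq_iff.2 (prod_smul h3).symm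
  have e : g = x * y * x⁻¹ * y⁻¹ * l.prod⁻¹ := by rw [h5]; group
  rw [e, mul_smul, hp, mul_smul, mul_smul, mul_smul, inv_smul_eq_iff.2 h2.symm,
    inv_smul_eq_iff.2 h1.symm, h2, h1]

theorem inOmL_m2 (hR : ∀ r ∈ R, r * g = g * r) (hCs : ∀ K ∈ Cs, Cj K)
    {w : X × G × G × List G} (h : InOmL R g Cs w) : InOmL R g Cs (m2 g w) := by
  have hg := g_smul h
  obtain ⟨s, x, y, l⟩ := w
  obtain ⟨h1, h2, h3, h4, h5, h6⟩ := h
  simp only at h1 h2 h3 h4 h5 h6 hg
  have hg' : g⁻¹ • s = s := inv_smul_eq_iff.2 hg.symm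
  refine ⟨h1, ?_, ?_, cl_forall hCs _ h4, ?_, ?_⟩
  · show (g⁻¹ * x * y) • s = s
    rw [mul_smul, mul_smul, h2, h1, hg']
  · intro z hz
    obtain ⟨z', hz', rfl⟩ := cl_mem.1 hz
    show ((g⁻¹ * x) * z' * (g⁻¹ * x)⁻¹) • s = s
    have he : (g⁻¹ * x) • s = s := by rw [mul_smul, h1, hg']
    rw [mul_smul, mul_smul, inv_smul_eq_iff.2 he.symm, h3 z' hz', he]
  · show x * (g⁻¹ * x * y) * x⁻¹ * (g⁻¹ * x * y)⁻¹ = g * (cl (g⁻¹ * x) l).prod
    rw [cl_prod]
    have e : l.prod = g⁻¹ * (x * y * x⁻¹ * y⁻¹) := by rw [h5]; group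
    rw [e]
    group
  · intro U hU hf hx hy hl
    -- conjugation by `e = g⁻¹ x` is conjugation by `x` on `U`
    have hx' : ∀ u ∈ U, x * u * x⁻¹ ∈ U := hx
    have hxi := conj_inv_mem U x hx'
    have hinv : ∀ u ∈ U, (g⁻¹ * x)⁻¹ * u * (g⁻¹ * x) ∈ U := by
      intro u hu
      have e : (g⁻¹ * x)⁻¹ * u * (g⁻¹ * x) = x⁻¹ * u * x := by
        have h7 : g * u * g⁻¹ = u := by
          rw [← hR u (hU hu), mul_inv_cancel_right]
        calc (g⁻¹ * x)⁻¹ * u * (g⁻¹ * x) = x⁻¹ * (g * u * g⁻¹) * x := by group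
          _ = x⁻¹ * u * x := by rw [h7]
      rw [e]
      exact hxi u hu
    have hfw : ∀ u ∈ U, (g⁻¹ * x) * u * (g⁻¹ * x)⁻¹ ∈ U := by
      intro u hu
      have h8 := conj_inv_mem U (g⁻¹ * x)⁻¹ (by
        intro v hv
        rw [inv_inv]
        exact hinv v hv) u hu
      rw [inv_inv] at h8
      exact h8
    refine h6 U hU hf hx' ?_ ?_
    · intro u hu
      have h9 : (g⁻¹ * x * y) * u * (g⁻¹ * x * y)⁻¹ ∈ U := hy u hu
      have h10 := hinv _ h9
      have e : (g⁻¹ * x)⁻¹ * ((g⁻¹ * x * y) * u * (g⁻¹ * x * y)⁻¹) * (g⁻¹ * x)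
          = y * u * y⁻¹ := by group
      rw [e] at h10
      exact h10
    · intro z hz u hu
      have h9 := hl ((g⁻¹ * x) * z * (g⁻¹ * x)⁻¹) (cl_mem.2 ⟨z, hz, rfl⟩) _ (hfw u hu)
      have h10 := hinv _ h9
      have e : (g⁻¹ * x)⁻¹ * (((g⁻¹ * x) * z * (g⁻¹ * x)⁻¹) * ((g⁻¹ * x) * u * (g⁻¹ * x)⁻¹) *
          ((g⁻¹ * x) * z * (g⁻¹ * x)⁻¹)⁻¹) * (g⁻¹ * x) = z * u * z⁻¹ := by group
      rw [e] at h10
      exact h10

theorem inOmL_cjl (hR : ∀ r ∈ R, r * g = g * r) (hCs : ∀ K ∈ Cs, Cj K)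
    {w : X × G × G × List G} (h : InOmL R g Cs w) {r : G} (hr : r ∈ R) :
    InOmL R g Cs (cjl r w) := by
  obtain ⟨s, x, y, l⟩ := w
  obtain ⟨h1, h2, h3, h4, h5, h6⟩ := h
  simp only at h1 h2 h3 h4 h5 h6
  refine ⟨?_, ?_, ?_, cl_forall hCs _ h4, ?_, ?_⟩
  · show (r * x * r⁻¹) • (r • s) = r • s
    rw [← mul_smul, show r * x * r⁻¹ * r = r * x by group, mul_smul, h1]
  · show (r * y * r⁻¹) • (r • s) = r • s
    rw [← mul_smul, show r * y * r⁻¹ * r = r * y by group, mul_smul, h2]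
  · intro z hz
    obtain ⟨z', hz', rfl⟩ := cl_mem.1 hz
    show (r * z' * r⁻¹) • (r • s) = r • s
    rw [← mul_smul, show r * z' * r⁻¹ * r = r * z' by group, mul_smul, h3 z' hz']
  · show (r * x * r⁻¹) * (r * y * r⁻¹) * (r * x * r⁻¹)⁻¹ * (r * y * r⁻¹)⁻¹ = g * (cl r l).prod
    have e : (r * x * r⁻¹) * (r * y * r⁻¹) * (r * x * r⁻¹)⁻¹ * (r * y * r⁻¹)⁻¹
        = r * (x * y * x⁻¹ * y⁻¹) * r⁻¹ := by group
    rw [e, h5, cl_prod, ← mul_assoc r g, hR r hr]; group
  · intro U hU hf hx hy hl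
    have hf' : ∀ u ∈ U, u • (r • s) = r • s := hf
    have hx' : ∀ u ∈ U, (r * x * r⁻¹) * u * (r * x * r⁻¹)⁻¹ ∈ U := hx
    have hy' : ∀ u ∈ U, (r * y * r⁻¹) * u * (r * y * r⁻¹)⁻¹ ∈ U := hy
    have hV : U.comap (MulAut.conj r).toMonoidHom = ⊥ := by
      refine h6 _ ?_ ?_ ?_ ?_ ?_
      · intro u hu
        have hu' : r * u * r⁻¹ ∈ U := hu
        have e : u = r⁻¹ * (r * u * r⁻¹) * r := by group
        rw [e]
        exact R.mul_mem (R.mul_mem (R.inv_mem hr) (hU hu')) hr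
      · intro u hu
        have hu' : r * u * r⁻¹ ∈ U := hu
        have h7 := hf' _ hu'
        rw [← mul_smul, show r * u * r⁻¹ * r = r * u by group, mul_smul] at h7
        exact (MulAction.injective r) h7
      · intro u hu
        have hu' : r * u * r⁻¹ ∈ U := hu
        have h7 := hx' _ hu'
        show r * (x * u * x⁻¹) * r⁻¹ ∈ U
        have e : (r * x * r⁻¹) * (r * u * r⁻¹) * (r * x * r⁻¹)⁻¹ = r * (x * u * x⁻¹) * r⁻¹ := by
          group
        rw [← e]; exact h7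
      · intro u hu
        have hu' : r * u * r⁻¹ ∈ U := hu
        have h7 := hy' _ hu'
        show r * (y * u * y⁻¹) * r⁻¹ ∈ U
        have e : (r * y * r⁻¹) * (r * u * r⁻¹) * (r * y * r⁻¹)⁻¹ = r * (y * u * y⁻¹) * r⁻¹ := by
          group
        rw [← e]; exact h7
      · intro z hz u hu
        have hu' : r * u * r⁻¹ ∈ U := hu
        have h7 := hl (r * z * r⁻¹) (cl_mem.2 ⟨z, hz, rfl⟩) _ hu'
        show r * (z * u * z⁻¹) * r⁻¹ ∈ U
        have e : (r * z * r⁻¹) * (r * u * r⁻¹) * (r * z * r⁻¹)⁻¹ = r * (z * u * z⁻¹) * r⁻¹ := by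
          group
        rw [← e]; exact h7
    rw [eq_bot_iff]
    intro u hu
    have h8 : r⁻¹ * u * r ∈ U.comap (MulAut.conj r).toMonoidHom := by
      show r * (r⁻¹ * u * r) * r⁻¹ ∈ U
      rw [show r * (r⁻¹ * u * r) * r⁻¹ = u by group]; exact hu
    rw [hV, Subgroup.mem_bot] at h8
    rw [Subgroup.mem_bot]
    have e : u = r * (r⁻¹ * u * r) * r⁻¹ := by group
    rw [e, h8]; group

theorem free_cjl {w : X × G × G × List G} (h : InOmL R g Cs w) {r : G} (hr : r ∈ R)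
    (e : cjl r w = w) : r = 1 := by
  obtain ⟨s, x, y, l⟩ := w
  obtain ⟨h1, h2, h3, h4, h5, h6⟩ := h
  simp only at h1 h2 h3 h4 h5 h6
  simp only [cjl, Prod.mk.injEq] at e
  obtain ⟨e1, e2, e3, e4⟩ := e
  have key : ∀ z : G, r * z * r⁻¹ = z → ∀ u ∈ Subgroup.zpowers r,
      z * u * z⁻¹ ∈ Subgroup.zpowers r := by
    rintro z hz u ⟨n, rfl⟩
    have cz : Commute r z := by
      show r * z = z * r
      exact mul_inv_eq_iff_eq_mul.1 hz
    have h7 : z * r ^ n * z⁻¹ = r ^ n := by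
      rw [← (cz.zpow_left n).eq]; group
    show z * r ^ n * z⁻¹ ∈ Subgroup.zpowers r
    rw [h7]; exact ⟨n, rfl⟩
  have hl : ∀ z ∈ l, r * z * r⁻¹ = z := by
    intro z hz
    have h7 : ∀ z' ∈ l, (fun z => r * z * r⁻¹) z' = id z' := by
      have h8 : l.map (fun z => r * z * r⁻¹) = l.map id := by rw [List.map_id]; exact e4
      exact List.map_inj_left.1 h8
    exact h7 z hz
  have hb := h6 (Subgroup.zpowers r) (by rw [Subgroup.zpowers_le]; exact hr) (by
    intro u hu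
    have h7 : Subgroup.zpowers r ≤ MulAction.stabilizer G s := by
      rw [Subgroup.zpowers_le]; exact e1
    exact h7 hu) (key x e2) (key y e3) (fun z hz => key z (hl z hz))
  have : r ∈ Subgroup.zpowers r := Subgroup.mem_zpowers r
  rw [hb, Subgroup.mem_bot] at this
  exact this

theorem finite_inOmL [Finite X] : Finite {w : X × G × G × List G // InOmL R g Cs w} := by
  have h1 : {w : X × G × G × List G | InOmL R g Cs w} ⊆
      (Set.univ : Set X) ×ˢ (Set.univ : Set G) ×ˢ (Set.univ : Set G) ×ˢ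
        {l : List G | l.length = Cs.length} := by
    intro w hw
    exact ⟨trivial, trivial, trivial, hw.ml.length_eq⟩
  have h2 : ((Set.univ : Set X) ×ˢ (Set.univ : Set G) ×ˢ (Set.univ : Set G) ×ˢ
        {l : List G | l.length = Cs.length}).Finite :=
    Set.finite_univ.prod (Set.finite_univ.prod (Set.finite_univ.prod
      (List.finite_length_eq G Cs.length)))
  exact (h2.subset h1).to_subtype

end inom

end Pool.Agent.PP.ML.H24
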