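import Pool.Agent.Helper66_ML.Stmts
import Pool.Agent.Helper94_PP.Bridge
import Pool.Agent.Helper74_PP.Orbit

/-!
# Squad ML, row REG (helper24)

Multiplication with the sum of the `ℓ`-elements does not change the coefficients of a central
idempotent at the `ℓ`-regular elements.
-/

open scoped BigOperators

noncomputable section

namespace Pool.Agent.PP.ML.H24

open Pool.Agent.Helper51_AWC Pool.Agent.Helper79_WRA Pool.Agent.PP Pool.Agent.Helper98_CC

section

variable {ℓ : ℕ} {F H : Type} [Field F] [Group H] [Finite H]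

theorem isCl_dl_one : IsCl (dl F (1 : H)) := by
  classical
  intro x y
  unfold dl
  have : (y * x * y⁻¹ = 1) ↔ x = 1 := by
    constructor
    · intro h
      have h2 : y * x = y := by
        have := congrArg (fun t => t * y) h
        simpa using this
      exact mul_eq_left.1 h2
    · rintro rfl
      simp
  by_cases h : x = 1
  · rw [if_pos h, if_pos (this.2 h)]
  · rw [if_neg h, if_neg (fun h' => h (this.1 h'))]

theorem fl_dl_one (a : H → F) : fl (dl F (1 : H)) (ma a) = a 1 := by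
  classical
  have := Fintype.ofFinite H
  rw [fl_ma, finsum_eq_sum_of_fintype, Finset.sum_eq_single 1]
  · unfold dl
    rw [if_pos rfl, mul_one]
  · intro b _ hb
    unfold dl
    rw [if_neg hb, mul_zero]
  · intro h
    exact absurd (Finset.mem_univ _) h

/-- the coefficient at `1` of an `ℓ ^ n`-th power -/
theorem coef_pow (hp : ℓ.Prime) (hc : CharP F ℓ) (a : H → F) (n : ℕ) :
    fl (dl F (1 : H)) (ma a ^ (ℓ ^ n))
      = (∑ᶠ (t : H) (_ : t ^ (ℓ ^ n) = 1), a t) ^ (ℓ ^ n) := by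
  classical
  have := Fintype.ofFinite H
  have : Fact ℓ.Prime := ⟨hp⟩
  have := hc
  have hV : ∀ v : F, ℓ • v = 0 := fun v => by
    rw [nsmul_eq_mul, CharP.cast_eq_zero, zero_mul]
  have h1 := H74.pow_sum (l := ℓ) hV (fl (dl F (1 : H))).toAddMonoidHom
    (fun x y => fl_comm isCl_dl_one x y) (fun t : H => MonoidAlgebra.single t (a t)) n
  rw [← finsum_eq_sum_of_fintype, ← ma_eq_sum] at h1
  change fl (dl F (1 : H)) (ma a ^ (ℓ ^ n)) = ∑ t : H,
    fl (dl F (1 : H)) ((MonoidAlgebra.single t (a t) : MonoidAlgebra F H) ^ (ℓ ^ n)) at h1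
  rw [h1]
  have h2 : (∑ᶠ (t : H) (_ : t ^ (ℓ ^ n) = 1), a t)
      = ∑ t : H, if t ^ (ℓ ^ n) = 1 then a t else 0 := by
    rw [finsum_eq_sum_of_fintype]
    apply Finset.sum_congr rfl
    intro t _
    by_cases h : t ^ (ℓ ^ n) = 1
    · rw [if_pos h, finsum_eq_if, if_pos h]
    · rw [if_neg h, finsum_eq_if, if_neg h]
  rw [h2, sum_pow_char_pow]
  apply Finset.sum_congr rfl
  intro t _
  rw [MonoidAlgebra.single_pow, fl_single]
  unfold dl
  by_cases h : t ^ (ℓ ^ n) = 1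
  · rw [if_pos h, if_pos h, mul_one]
  · rw [if_neg h, if_neg h, mul_zero, zero_pow (pow_ne_zero _ hp.ne_zero)]

/-- the value of the product at `g` -/
theorem mulF_ellS {e : H → F} (he : IsCl e) (g : H) {n : ℕ}
    (hn : ∀ u : H, (∃ m : ℕ, u ^ ℓ ^ m = 1) → u ^ ℓ ^ n = 1) :
    mulF e (ellS ℓ F) g = ∑ᶠ (u : H) (_ : u ^ (ℓ ^ n) = 1), e (u * g) := by
  classical
  have := Fintype.ofFinite H
  have h2 : (∑ᶠ (u : H) (_ : u ^ (ℓ ^ n) = 1), e (u * g))
      = ∑ u : H, if u ^ (ℓ ^ n) = 1 then e (u * g) else 0 := by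
    rw [finsum_eq_sum_of_fintype]
    apply Finset.sum_congr rfl
    intro t _
    by_cases h : t ^ (ℓ ^ n) = 1
    · rw [if_pos h, finsum_eq_if, if_pos h]
    · rw [if_neg h, finsum_eq_if, if_neg h]
  rw [h2]
  unfold mulF
  rw [finsum_eq_sum_of_fintype]
  -- substitute `t = g u⁻¹... `
  rw [← (Equiv.sum_comp ((Equiv.inv H).trans (Equiv.mulLeft g))
    (fun t : H => e t * ellS ℓ F (t⁻¹ * g)))]
  rw [← (Equiv.sum_comp (Equiv.inv H) (fun u : H => if u ^ (ℓ ^ n) = 1 then e (u * g) else 0))]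
  apply Finset.sum_congr rfl
  intro u _
  have e1 : ((Equiv.inv H).trans (Equiv.mulLeft g)) u = g * u⁻¹ := rfl
  have e2 : (Equiv.inv H) u = u⁻¹ := rfl
  rw [e1, e2]
  have e3 : (g * u⁻¹)⁻¹ * g = u := by group
  have e4 : e (g * u⁻¹) = e (u⁻¹ * g) := by
    have := he (u⁻¹ * g) g
    rw [← this]
    congr 1
    group
  rw [e3, e4]
  unfold ellS
  by_cases h : u ^ (ℓ ^ n) = 1
  · rw [if_pos ⟨n, h⟩, if_pos (by rw [inv_pow, h, inv_one]), mul_one]
  · rw [if_neg (fun h' => h (hn u h')), if_neg (fun h' => h (by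
      rw [inv_pow] at h'
      exact inv_eq_one.1 h')), mul_zero]

/-- The power: `(mulF e ellS g) ^ q = e g` for suitable `q`. -/
theorem key (hp : ℓ.Prime) (hc : CharP F ℓ) {e : H → F} (he : IsIdem e) (g : H) {n : ℕ}
    (hn : ∀ u : H, (∃ m : ℕ, u ^ ℓ ^ m = 1) → u ^ ℓ ^ n = 1) (hg : g ^ (ℓ ^ n) = g) :
    mulF e (ellS ℓ F) g ^ (ℓ ^ n) = e g := by
  classical
  have := Fintype.ofFinite H
  obtain ⟨hcen, hid⟩ := (isIdem_iff e).1 he
  have hval : ∀ u : H, mulF e (dl F g⁻¹) u = e (u * g) := by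
    intro u
    unfold mulF
    rw [finsum_eq_sum_of_fintype, Finset.sum_eq_single (u * g)]
    · unfold dl
      rw [if_pos (by group), mul_one]
    · intro b _ hb
      unfold dl
      rw [if_neg (fun h => hb (by
        have h2 : b * (b⁻¹ * u) * g = b * g⁻¹ * g := by rw [h]
        rw [mul_inv_cancel_left, inv_mul_cancel_right] at h2
        exact h2.symm)), mul_zero]
    · intro h
      exact absurd (Finset.mem_univ _) h
  have h1 := coef_pow hp hc (mulF e (dl F g⁻¹)) n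
  have h2 : ma (mulF e (dl F g⁻¹)) ^ (ℓ ^ n) = ma (mulF e (dl F g⁻¹)) := by
    rw [ma_mul]
    have hcom : Commute (ma e) (ma (dl F g⁻¹)) := (Subalgebra.mem_center_iff.1 hcen _).symm
    rw [hcom.mul_pow]
    have h3 : ma e ^ (ℓ ^ n) = ma e := by
      obtain ⟨k, hk⟩ := Nat.exists_eq_succ_of_ne_zero (pow_ne_zero n hp.ne_zero)
      rw [hk]
      exact hid.pow_succ_eq k
    rw [h3, ma_dl, MonoidAlgebra.single_pow, one_pow, inv_pow, hg]
  rw [h2, fl_dl_one, hval, one_mul] at h1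
  rw [h1]
  congr 1
  rw [mulF_ellS he.1 g hn]
  apply finsum_congr
  intro u
  apply finsum_congr
  intro _
  rw [hval]

end

theorem reg : RegStmt := by
  intro ℓ F _ hF H _ _ e he g hg
  have hp := hF.prime
  have hc := hF.char
  have hcop : Nat.Coprime ℓ (orderOf g) := hg.symm
  have hpos : 0 < orderOf g := orderOf_pos g
  have hcard : 0 < Nat.card H := Nat.card_pos
  -- the exponent
  obtain ⟨n, hn⟩ : ∃ n : ℕ, n = Nat.totient (orderOf g) * Nat.card H := ⟨_, rfl⟩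
  have hle : Nat.card H ≤ n := by
    rw [hn]
    exact Nat.le_mul_of_pos_left _ (Nat.totient_pos.2 hpos)
  have hg1 : g ^ (ℓ ^ n) = g := by
    have h1 : ℓ ^ n ≡ 1 [MOD orderOf g] := by
      rw [hn, pow_mul]
      have := (Nat.ModEq.pow_totient hcop).pow (Nat.card H)
      rwa [one_pow] at this
    have h2 := (pow_eq_pow_iff_modEq (x := g)).2 h1
    rwa [pow_one] at h2
  have hg2 : g ^ (ℓ ^ (2 * n)) = g := by
    rw [two_mul, pow_add, pow_mul, hg1, hg1]
  have hu : ∀ k, Nat.card H ≤ k → ∀ u : H, (∃ m : ℕ, u ^ ℓ ^ m = 1) → u ^ ℓ ^ k = 1 := by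
    rintro k hk u ⟨m, hm⟩
    obtain ⟨j, _, hj⟩ := (Nat.dvd_prime_pow hp).1 (orderOf_dvd_of_pow_eq_one hm)
    have h1 : j < ℓ ^ j := Nat.lt_pow_self hp.one_lt
    have h2 : orderOf u ≤ Nat.card H := orderOf_le_card
    have h3 : ℓ ^ j ∣ ℓ ^ k := pow_dvd_pow _ (by omega)
    rw [← hj] at h3
    exact orderOf_dvd_iff_pow_eq_one.1 h3
  have h1 := key hp hc he g (hu n hle) hg1
  have h2 := key hp hc he g (hu (2 * n) (by omega)) hg2
  have h3 : e g ^ (ℓ ^ n) = e g := by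
    rw [two_mul, pow_add, pow_mul, h1] at h2
    exact h2
  have : Fact ℓ.Prime := ⟨hp⟩
  have h4 : (mulF e (ellS ℓ F) g - e g) ^ (ℓ ^ n) = 0 := by
    rw [sub_pow_char_pow, h1, h3, sub_self]
  exact sub_eq_zero.1 (pow_eq_zero_iff (pow_ne_zero n hp.ne_zero) |>.1 h4)

end Pool.Agent.PP.ML.H24
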