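import Pool.Agent.Helper24_ML.Moves

/-!
# Squad ML, stage 2, row TL2 (helper24): the chain relation
-/

open scoped BigOperators

set_option linter.unusedSectionVars false

noncomputable section

namespace Pool.Agent.PP.ML.H24

open Pool.Agent.PP.ML Pool.Agent.Helper71_ML Pool.Agent.PP.ML.H71

/-- the set of the tuples as a type -/
def Om {G X : Type} [Group G] [MulAction G X] (R : Subgroup G) (g : G) (Cs : List (Set G)) : Type :=
  {w : X × G × G × List G // InOmL R g Cs w}

section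

variable {G X : Type} [Group G] [Finite G] [Finite X] [MulAction G X] {R : Subgroup G} {g : G}
  {Cs : List (Set G)}

instance finOm : Finite (Om (X := X) R g Cs) := finite_inOmL

/-- the action of `R` by conjugation -/
@[reducible] def act (hR : ∀ r ∈ R, r * g = g * r) (hCs : ∀ K ∈ Cs, Cj K) :
    MulAction R (Om (X := X) R g Cs) where
  smul := fun r w => ⟨cjl r.1 w.1, inOmL_cjl hR hCs w.2 r.2⟩
  one_smul := fun w => Subtype.ext (cjl_one w.1)
  mul_smul := fun r r' w => Subtype.ext (cjl_mul r.1 r'.1 w.1)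

/-- the permutation of an injective move -/
def perm (m : X × G × G × List G → X × G × G × List G) (hm : Function.Injective m)
    (h : ∀ w, InOmL R g Cs w → InOmL R g Cs (m w)) : Equiv.Perm (Om (X := X) R g Cs) :=
  Equiv.ofBijective (fun w => ⟨m w.1, h w.1 w.2⟩) (Finite.injective_iff_bijective.1
    (fun w w' e => Subtype.ext (hm (congrArg Subtype.val e))))

theorem perm_val (m : X × G × G × List G → X × G × G × List G) (hm : Function.Injective m)
    (h : ∀ w, InOmL R g Cs w → InOmL R g Cs (m w)) (w : Om (X := X) R g Cs) :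
    (perm m hm h w).1 = m w.1 := rfl

/-- the move `a₁` -/
def p1 (R : Subgroup G) (g : G) (Cs : List (Set G)) : Equiv.Perm (Om (X := X) R g Cs) :=
  perm m1 m1_inj fun _ h => inOmL_m1 h

/-- the move `b` -/
def pb (R : Subgroup G) (g : G) (Cs : List (Set G)) : Equiv.Perm (Om (X := X) R g Cs) :=
  perm mb mb_inj fun _ h => inOmL_mb h

/-- the move `a₂` -/
def p2 (hR : ∀ r ∈ R, r * g = g * r) (hCs : ∀ K ∈ Cs, Cj K) :
    Equiv.Perm (Om (X := X) R g Cs) :=
  perm (m2 g) (m2_inj g) fun _ h => inOmL_m2 hR hCs h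

end

/-- The core: the transfer of the move `a₁` is trivial. -/
def CoreStmt : Prop := ∀ (G X A : Type) [Group G] [Finite G] [Finite X] [MulAction G X]
  [CommGroup A] (R : Subgroup G) (g : G) (ρ : R →* A) (hR : ∀ r ∈ R, r * g = g * r)
  (Cs : List (Set G)) (hCs : ∀ K ∈ Cs, Cj K) (k : Om (X := X) R g Cs → A),
  letI := act (X := X) hR hCs
  Equiva ρ k → tau R k (p1 R g Cs) = 1

theorem tl2 (core : CoreStmt) : TL2Stmt := by
  intro G X A _ _ _ _ _ R g ρ hR K hK j hj hsq
  have hCs : ∀ K' ∈ [K], Cj K' := by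
    intro K' hK'
    rw [List.mem_singleton.1 hK']
    exact hK
  let act : MulAction R (Om (X := X) R g [K]) := act hR hCs
  have hsm : ∀ (r : R) (w : Om (X := X) R g [K]), (r • w).1 = cjl r.1 w.1 := fun _ _ => rfl
  have hfree : ∀ (r : R) (w : Om (X := X) R g [K]), r • w = w → r = 1 := by
    intro r w h
    exact Subtype.ext (free_cjl w.2 r.2 (congrArg Subtype.val h))
  obtain ⟨k, hk⟩ := exists_equiva (Ω := Om (X := X) R g [K]) ρ fun r w h => by
    rw [hfree r w h, map_one]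
  have c1 : Comm R (p1 (X := X) R g [K]) := fun r w => Subtype.ext (m1_cjl r.1 w.1)
  have cb : Comm R (pb (X := X) R g [K]) := fun r w => Subtype.ext (mb_cjl r.1 w.1)
  have c2 : Comm R (p2 (X := X) hR hCs) := fun r w =>
    Subtype.ext (m2_cjl (hR r.1 r.2) w.1)
  have t1 : tau R k (p1 (X := X) R g [K]) = 1 := core G X A R g ρ hR [K] hCs k hk
  have b1 : p1 (X := X) R g [K] * pb R g [K] * p1 R g [K] = pb R g [K] * p1 R g [K] * pb R g [K] :=
    Equiv.ext fun w => Subtype.ext (braid_1b w.1)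
  have b2 : p2 (X := X) hR hCs * pb R g [K] * p2 hR hCs = pb R g [K] * p2 hR hCs * pb R g [K] :=
    Equiv.ext fun w => Subtype.ext (braid_2b g w.1)
  have tb : tau R k (pb (X := X) R g [K]) = 1 := by
    rw [← tau_braid hk c1 cb b1]
    exact t1
  have t2 : tau R k (p2 (X := X) hR hCs) = 1 := by
    rw [tau_braid hk c2 cb b2]
    exact tb
  -- the permutation `κ = a₁ b a₂`
  obtain ⟨κ, hκ⟩ : ∃ κ : Equiv.Perm (Om (X := X) R g [K]),
      κ = p1 R g [K] * pb R g [K] * p2 hR hCs := ⟨_, rfl⟩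
  have cκ : Comm R κ := by
    rw [hκ]
    exact (c1.mul cb).mul c2
  have tκ : tau R k κ = 1 := by
    rw [hκ, tau_mul hk (c1.mul cb) c2, tau_mul hk c1 cb, t1, tb, t2, one_mul, one_mul]
  -- the chain relation
  have hchain : ∀ w : Om (X := X) R g [K], ((κ ^ 4) w).1 = cjl g⁻¹ w.1 := by
    intro w
    have hval : ∀ v : Om (X := X) R g [K], (κ v).1 = m1 (mb (m2 g v.1)) := by
      intro v
      rw [hκ]
      rfl
    have h4 : ((κ ^ 4) w).1 = m1 (mb (m2 g (m1 (mb (m2 g (m1 (mb (m2 g (m1 (mb (m2 g w.1)))))))))))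
        := by
      have e : (κ ^ 4) w = κ (κ (κ (κ w))) := rfl
      rw [e, hval, hval, hval, hval]
    rw [h4]
    have hg := g_smul w.2
    have hg' : g⁻¹ • w.1.1 = w.1.1 := inv_smul_eq_iff.2 hg.symm
    have hcm := w.2.cm
    have hml := w.2.ml
    obtain ⟨⟨s, x, y, l⟩, hw⟩ := w
    simp only at hcm hml hg'
    obtain ⟨z, rfl⟩ : ∃ z, l = [z] := by
      cases hml with
      | cons h1 h2 =>
        cases h2
        exact ⟨_, rfl⟩
    have hrel : MRel g (x, y, z, (1 : G)) := by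
      unfold MRel
      simp only
      rw [hcm, List.prod_singleton, mul_one]
    have hch := chain_rel hrel rfl
    have hstep : ∀ t : G × G × G × G, t.2.2.2 = 1 →
        m1 (mb (m2 g (s, t.1, t.2.1, [t.2.2.1])))
          = (s, (mKa g t).1, (mKa g t).2.1, [(mKa g t).2.2.1]) := by
      intro t _
      rfl
    have h1 : (mKa g (x, y, z, (1 : G))).2.2.2 = 1 := mKa_one rfl
    have h2 := mKa_one (g := g) h1
    have h3 := mKa_one (g := g) h2
    have e1 := hstep (x, y, z, (1 : G)) rfl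
    have e2 := hstep _ h1
    have e3 := hstep _ h2
    have e4 := hstep _ h3
    simp only at e1
    rw [e1, e2, e3, e4, hch]
    simp only [cjl, cl, List.map_cons, List.map_nil, inv_inv, hg']
  -- powers
  have hpow : ∀ (i : ℕ) (w : Om (X := X) R g [K]), (((κ ^ 4) ^ i) w).1 = cjl (g ^ i)⁻¹ w.1 := by
    intro i
    induction i with
    | zero =>
      intro w
      rw [pow_zero, pow_zero, inv_one, cjl_one]
      rfl
    | succ i ih =>
      intro w
      rw [pow_succ', Equiv.Perm.mul_apply, hchain, ih, ← cjl_mul, pow_succ, mul_inv_rev]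
  obtain ⟨r₀, hr₀⟩ : ∃ r₀ : R, r₀ = (⟨g ^ j, hj⟩ : R)⁻¹ := ⟨_, rfl⟩
  have hθ : ∀ w : Om (X := X) R g [K], ((κ ^ j) ^ 4) w = r₀ • w := by
    intro w
    apply Subtype.ext
    rw [← pow_mul, mul_comm j 4, pow_mul, hpow, hsm, hr₀]
    rfl
  have hN : ∀ d, d ∣ 4 → d ≠ 4 → ∀ r : R, r ^ (4 / d) ≠ r₀ := by
    intro d hd hd4 r hr
    have h1 : ∃ v : R, v ^ 2 = r₀ := by
      have hle : d ≤ 4 := Nat.le_of_dvd (by norm_num) hd
      interval_cases d
      · simp at hd
      · exact ⟨r ^ 2, by rw [← pow_mul]; exact hr⟩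
      · exact ⟨r, hr⟩
      · omega
      · exact absurd rfl hd4
    obtain ⟨v, hv⟩ := h1
    apply hsq (v⁻¹ : R).1 (v⁻¹ : R).2
    have h2 : (v⁻¹) ^ 2 = (⟨g ^ j, hj⟩ : R) := by
      rw [inv_pow, hv, hr₀, inv_inv]
    exact congrArg Subtype.val h2
  have hfin := star_dvd hfree hk (cκ.pow j) hθ hN (by rw [tau_pow hk cκ, tκ, one_pow])
  have hord : orderOf (ρ r₀) = orderOf (ρ ⟨g ^ j, hj⟩) := by
    rw [hr₀, map_inv, orderOf_inv]
  rw [hord] at hfin
  have h9 : {w : X × G × G × List G | InOmL R g [K] w}.ncard = Nat.card (Om (X := X) R g [K]) :=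
    rfl
  rw [h9]
  have h10 : 4 * orderOf (ρ ⟨g ^ j, hj⟩) * Nat.card R
      = orderOf (ρ ⟨g ^ j, hj⟩) * (4 * Nat.card R) := by ring
  rw [h10]
  exact hfin

end Pool.Agent.PP.ML.H24
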